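import Pool.Agent.H463.DH.All5

/-!
# The 3-part of the class groups of real quadratic function fields of characteristic 3

Let `F` be a finite field of characteristic `3` with `q` elements (`q = 3, 9, 27, …` is fixed).
The quadratic extensions `K` of `F(t)` in which the infinite place splits are the fields `F(t)(√f)` with `f`
monic squarefree of even degree `2 g + 2` (`g ≥ 0` is the genus of `K`); the integral closure of `F[t]` in `K` is
the Dedekind domain `F[t] + F[t] √f`, with finite class group.

The theorem: the average of the number of ideal classes `c` with `c³ = 1` over all these `f` is `4/3`, with a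
power saving in the error term, for every fixed `q = 3^k`; consequently for at least the proportion `5/6`
of these `K` (lower density) the class number is not divisible by `3`.  (Cohen and Lenstra predict the
proportion `∏_{k ≥ 2} (1 - 3^{-k}) = 0.8402…`.)

## The proof

Let `δ` be the derivation of `O = F[t] + F[t] √f` with `δ t = √f`.  If `I³ = (h)` then `δ h = v h` with a
polynomial `v`, `(f v)'' = - v³`, and every such `v` occurs (as `δ³ = - f'' δ`).  The units of `O` modulo
constants form an infinite cyclic group (Pell's equation), and the logarithmic derivatives of the units are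
`0, v₀, -v₀`; so there are `3` times as many solutions `v` as classes with `c³ = 1`.  The number of the pairs
`(f, v)` with `v` of degree less than `g` is asymptotically the number of the `f` (each nonzero `v` gives linear
conditions for `f`), and the number of the pairs with `v` of degree `g` (the leading coefficient of `v` is then
`± 1`) is twice the number of the `f`; with `v = 0` the average number of solutions is `4`.
-/

set_option autoImplicit false

open Polynomial

noncomputable section

namespace Pool.Agent.Results.MP_16b5eb_nt.ThreePartRealFields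

/-- The ring `F[t] + F[t] √f`: elements `a + b s` with `a, b ∈ F[t]` and `s² = f`. -/
abbrev Ord {F : Type} [Field F] (f : F[X]) : Type := QuadraticAlgebra F[X] f 0

/-- The monic squarefree polynomials of degree `2 g + 2` over `F`. -/
def family (F : Type) [Field F] (g : ℕ) : Set F[X] :=
  {f | f.Monic ∧ Squarefree f ∧ f.natDegree = 2 * g + 2}

open scoped Classical in
/-- The class number of `Ord f` (for `f` in a `family`, when `Ord f` is a Dedekind domain with finite
class group; `0` if `Ord f` is not a domain). -/
def classNumber {F : Type} [Field F] (f : F[X]) : ℕ :=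
  if _h : IsDomain (Ord f) then Nat.card (ClassGroup (Ord f)) else 0

open scoped Classical in
/-- The number of ideal classes `c` of `Ord f` with `c³ = 1` (`0` if `Ord f` is not a domain). -/
def threeTorsion {F : Type} [Field F] (f : F[X]) : ℕ :=
  if _h : IsDomain (Ord f) then Nat.card {c : ClassGroup (Ord f) // c ^ 3 = 1} else 0

theorem family_eq (F : Type) [Field F] [Fintype F] [CharP F 3] (g : ℕ) :
    family F g = (DH.SQF F (2 * g + 2) : Set F[X]) := by
  have hB0 := DH.p_B0 F
  ext f
  simp only [family, Set.mem_setOf_eq, DH.SQF, Finset.coe_filter, hB0.2.1]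
  tauto

theorem result (F : Type) [Field F] [Fintype F] [CharP F 3] :
    -- the rings are Dedekind domains with finite class groups
    (∀ g : ℕ, ∀ f ∈ family F g, IsDedekindDomain (Ord f) ∧ 0 < classNumber f) ∧
    -- the size of the family
    (∀ g : ℕ, (family F g).Finite ∧ ((family F g).ncard : ℝ) =
      (Fintype.card F : ℝ) ^ (2 * g + 2) - (Fintype.card F : ℝ) ^ (2 * g + 1)) ∧
    -- the average of the number of classes with `c³ = 1` is `4/3`, with a power saving
    (∃ C : ℝ, ∀ g : ℕ, |∑ᶠ f ∈ family F g, ((threeTorsion f : ℝ) - 4 / 3)| ≤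
      C * (g + 1) ^ 3 * (Fintype.card F : ℝ) ^ (2 * g + 2) / (Fintype.card F : ℝ) ^ (g / 4)) ∧
    -- at least `5/6` of the class numbers are prime to `3`
    (∀ ε : ℝ, 0 < ε → ∃ g₀ : ℕ, ∀ g ≥ g₀, (5 / 6 - ε) * ((family F g).ncard : ℝ) ≤
      ({f ∈ family F g | ¬ 3 ∣ classNumber f}.ncard : ℝ)) := by
  classical
  obtain ⟨hE3, hEC⟩ := DH.e3c F
  have hEF5 := DH.ef5 F
  obtain ⟨⟨C, hC⟩, h56⟩ := DH.all5 F
  have hgood : ∀ g, ∀ f ∈ family F g, DH.GoodR f := by
    rintro g f ⟨hm, hs, hd⟩
    exact ⟨hm, hs, ⟨g + 1, by rw [hd]; ring⟩, by rw [hd]; omega⟩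
  have hcard : ∀ g : ℕ, ((family F g).ncard : ℝ) = ((DH.SQF F (2 * g + 2)).card : ℝ) := by
    intro g
    rw [family_eq, Set.ncard_coe_finset]
  refine ⟨?_, ?_, ⟨C, ?_⟩, ?_⟩
  · intro g f hf
    exact ⟨hE3 f (hgood g f hf), (hEC f (hgood g f hf)).1⟩
  · intro g
    refine ⟨?_, ?_⟩
    · rw [family_eq]
      exact Finset.finite_toSet _
    · rw [hcard]
      exact hEF5 g
  · intro g
    have e : ∑ᶠ f ∈ family F g, ((threeTorsion f : ℝ) - 4 / 3) =
        ∑ f ∈ DH.SQF F (2 * g + 2), ((DH.cl3 f : ℝ) - 4 / 3) := by
      rw [family_eq, finsum_mem_coe_finset]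
      rfl
    rw [e]
    exact hC g
  · intro ε hε
    obtain ⟨g₀, h⟩ := h56 ε hε
    refine ⟨g₀, fun g hg => ?_⟩
    have e : {f ∈ family F g | ¬ 3 ∣ classNumber f} =
        (((DH.SQF F (2 * g + 2)).filter (fun f => DH.cl3 f = 1) : Finset F[X]) : Set F[X]) := by
      ext f
      simp only [Set.mem_setOf_eq, Finset.coe_filter]
      rw [family_eq]
      constructor
      · rintro ⟨hf, h3⟩
        have hf' : f ∈ family F g := by rw [family_eq]; exact hf
        exact ⟨hf, (hEC f (hgood g f hf')).2.1.2 h3⟩
      · rintro ⟨hf, h3⟩
        have hf' : f ∈ family F g := by rw [family_eq]; exact hf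
        exact ⟨hf, (hEC f (hgood g f hf')).2.1.1 h3⟩
    rw [e, Set.ncard_coe_finset, hcard]
    exact h g hg

end Pool.Agent.Results.MP_16b5eb_nt.ThreePartRealFields
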